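import Pool.Agent.MP_ed46bc_co.LD.Four

/-!
# Long even sums: counting along the cosets of a subgroup
-/

namespace Pool.Agent.MP_ed46bc_co.LD

open Finset

universe u

variable {G : Type u} [AddCommGroup G] [Fintype G] [DecidableEq G]

/-- Number of points of `B` in the coset of `x`. -/
def cn (B K : Finset G) (x : G) : ℝ := ∑ z, ind B z * ind K (x - z)

omit [AddCommGroup G] [DecidableEq G] in
lemma sum_prod (k : ℕ) (f : G → ℝ) : ∑ a : Fin k → G, ∏ i, f (a i) = (∑ x, f x) ^ k := by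
  classical
  rw [← Fin.prod_const, prod_univ_sum, Fintype.piFinset_univ]

lemma sum_shift (K : Finset G) (y : G) : ∑ z, ind K (y - z) = K.card := by
  rw [← sum_ind]
  exact Fintype.sum_equiv (Equiv.subLeft y) _ _ fun _ => rfl

lemma cn_le (B K : Finset G) (x : G) : cn B K x ≤ B.card := by
  rw [← sum_ind]
  exact sum_le_sum fun z _ => mul_le_of_le_one_right (ind_nonneg _ _) (ind_le_one _ _)

lemma cn_le' (B K : Finset G) (x : G) : cn B K x ≤ K.card := by
  rw [← sum_shift K x]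
  exact sum_le_sum fun z _ => mul_le_of_le_one_left (ind_nonneg _ _) (ind_le_one _ _)

lemma cn_congr {K : Finset G} (k0 : 0 ∈ K) (ks : ∀ x ∈ K, ∀ y ∈ K, x - y ∈ K) (B : Finset G)
    {x y : G} (h : y - x ∈ K) : cn B K x = cn B K y := by
  refine sum_congr rfl fun z _ => ?_
  have : x - z ∈ K ↔ y - z ∈ K :=
    ⟨fun h' => by simpa using ks _ h' _ (ks _ k0 _ h), fun h' => by simpa using ks _ h' _ h⟩
  simp only [ind, this]

lemma cn_disj {K : Finset G} (ks : ∀ x ∈ K, ∀ y ∈ K, x - y ∈ K) (B : Finset G)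
    {x y : G} (h : y - x ∉ K) : cn B K x + cn B K y ≤ B.card := by
  rw [← sum_ind, cn, cn, ← sum_add_distrib]
  refine sum_le_sum fun z _ => ?_
  unfold ind
  split_ifs with h1 h2 h3 <;> norm_num
  exact h (by simpa using ks _ h3 _ h2)

lemma T_le_max (k : ℕ) (B K : Finset G) (c : ℝ) (h : ∀ x, cn B K x ≤ c) :
    T k K (ind B) ≤ (B.card : ℝ) ^ k * c := by
  rw [← sum_ind, ← sum_prod, sum_mul]
  exact sum_le_sum fun a _ =>
    mul_le_mul_of_nonneg_left (h _) (prod_nonneg fun i _ => ind_nonneg _ _)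

lemma T_le_drop (k : ℕ) (B K : Finset G) (y : G) (d : ℝ)
    (h : ∀ a : Fin k → G, (∀ i, y - a i ∈ K) → cn B K (∑ i, a i) ≤ B.card - d) :
    T k K (ind B) ≤ (B.card : ℝ) ^ (k + 1) - d * cn B K y ^ k := by
  have e : (B.card : ℝ) ^ (k + 1) - d * cn B K y ^ k = ∑ a : Fin k → G,
      ((∏ i, ind B (a i)) * B.card - d * ∏ i, ind B (a i) * ind K (y - a i)) := by
    rw [sum_sub_distrib, ← sum_mul, ← mul_sum, sum_prod k fun z => ind B z * ind K (y - z),
      sum_prod, sum_ind, pow_succ, cn]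
  rw [e]
  refine sum_le_sum fun a _ => ?_
  have hp : 0 ≤ ∏ i, ind B (a i) := prod_nonneg fun i _ => ind_nonneg _ _
  by_cases ha : ∀ i, y - a i ∈ K
  · have e2 : ∏ i, ind B (a i) * ind K (y - a i) = ∏ i, ind B (a i) :=
      prod_congr rfl fun i _ => by simp [ind, ha i]
    have := mul_le_mul_of_nonneg_left (h a ha) hp
    rw [e2]
    unfold cn at this
    linarith
  · push Not at ha
    obtain ⟨i, hi⟩ := ha
    rw [prod_eq_zero (f := fun i => ind B (a i) * ind K (y - a i)) (mem_univ i)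
      (by simp [ind, hi]), mul_zero, sub_zero]
    exact mul_le_mul_of_nonneg_left (cn_le B K _) hp

omit [Fintype G] in
lemma abs_dev (B K : Finset G) (y z : G) : |ind K (y - z) - ind B z| =
    ind K (y - z) + ind B z - 2 * (ind B z * ind K (y - z)) := by
  unfold ind; split_ifs <;> norm_num

lemma sum_dev (B K : Finset G) (y : G) :
    ∑ z, |ind K (y - z) - ind B z| = K.card + B.card - 2 * cn B K y := by
  rw [sum_congr rfl fun z _ => abs_dev B K y z, sum_sub_distrib, sum_add_distrib, sum_shift,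
    sum_ind, ← mul_sum, cn]

lemma T_dev (k : ℕ) (B K : Finset G) (y : G) :
    T k K (fun z => ind K (y - z) - ind B z) ≤ (K.card + B.card - 2 * cn B K y) ^ (k + 1) := by
  rw [← sum_dev, pow_succ, ← sum_prod, sum_mul]
  refine sum_le_sum fun a _ => (le_abs_self _).trans ?_
  rw [abs_mul, abs_prod]
  refine mul_le_mul_of_nonneg_left ((abs_sum_le_sum_abs _ _).trans (sum_le_sum fun z _ => ?_))
    (prod_nonneg fun i _ => abs_nonneg _)
  rw [abs_mul, abs_of_nonneg (ind_nonneg K _)]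
  exact mul_le_of_le_one_right (abs_nonneg _) (ind_le_one _ _)

lemma T_dev_gen (k : ℕ) (u : G → ℝ) (Q : G → Prop) [DecidablePred Q] (hu : ∀ x, |u x| ≤ 1)
    (h : ∀ a : Fin k → G, (∀ i, Q (a i)) → 0 ≤ (∏ i, u (a i)) * u (∑ i, a i)) :
    -T k {0} u ≤ (∑ x, |u x|) ^ k - (∑ x, if Q x then |u x| else 0) ^ k := by
  rw [← sum_prod, ← sum_prod, T_zero, ← sum_neg_distrib, ← sum_sub_distrib]
  refine sum_le_sum fun a _ => ?_
  by_cases ha : ∀ i, Q (a i)
  · rw [prod_congr rfl fun i _ => if_pos (ha i), sub_self, neg_nonpos]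
    exact h a ha
  · push Not at ha
    obtain ⟨i, hi⟩ := ha
    rw [prod_eq_zero (f := fun i => if Q (a i) then |u (a i)| else 0) (mem_univ i) (if_neg hi),
      sub_zero]
    refine (neg_le_abs _).trans ?_
    rw [abs_mul, abs_prod]
    exact mul_le_of_le_one_right (prod_nonneg fun i _ => abs_nonneg _) (hu _)

omit [Fintype G] in
lemma abs_dev_le (B K : Finset G) (y z : G) : |ind K (y - z) - ind B z| ≤ 1 := by
  unfold ind; split_ifs <;> norm_num

lemma T_dev_zero (k : ℕ) (B K : Finset G) (y : G)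
    (h : ∀ a : Fin k → G, (∀ i, y - a i ∈ K) → y - ∑ i, a i ∈ K) :
    -T k {0} (fun z => ind K (y - z) - ind B z) ≤
      (K.card + B.card - 2 * cn B K y) ^ k - (K.card - cn B K y) ^ k := by
  have e : (K.card : ℝ) - cn B K y =
      ∑ z, if y - z ∈ K then |ind K (y - z) - ind B z| else 0 := by
    rw [← sum_shift K y, cn, ← sum_sub_distrib]
    refine sum_congr rfl fun z _ => ?_
    unfold ind; split_ifs <;> norm_num
  have e1 : ∀ x, y - x ∈ K → 0 ≤ ind K (y - x) - ind B x := fun x hx => by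
    have := ind_le_one B x
    simp only [ind, hx, if_true] at this ⊢
    linarith
  rw [← sum_dev, e]
  exact T_dev_gen k _ (fun z => y - z ∈ K) (abs_dev_le B K y) fun a ha =>
    mul_nonneg (prod_nonneg fun i _ => e1 _ (ha i)) (e1 _ (h a ha))

lemma T_dev_abs (k : ℕ) (B K : Finset G) (y : G) :
    -T (k + 1) {0} (fun z => ind K (y - z) - ind B z) ≤
      (K.card + B.card - 2 * cn B K y) ^ (k + 1) := by
  have h := T_dev_gen (k + 1) _ (fun _ => False) (abs_dev_le B K y) fun a ha => (ha 0).elim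
  simpa [sum_dev] using h

lemma T_dev_two {K : Finset G} (k0 : 0 ∈ K) (ks : ∀ x ∈ K, ∀ y ∈ K, x - y ∈ K) (k : ℕ)
    (B : Finset G) (y z : G) (hg : y - k • y ∈ K) (hz : y - z ∉ K) (h2 : y - z + (y - z) ∈ K) :
    -T k {0} (fun x => ind K (y - x) - ind B x) ≤
      (K.card + B.card - 2 * cn B K y) ^ k - (K.card - cn B K y + cn B K z) ^ k := by
  have ka : ∀ u ∈ K, ∀ v ∈ K, u + v ∈ K := fun u hu v hv => by
    simpa using ks _ hu _ (ks _ k0 _ hv)
  have hd : ∀ x, y - x ∈ K → z - x ∉ K := fun x h h' => hz (by simpa using ks _ h _ h')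
  have e : (K.card : ℝ) - cn B K y + cn B K z =
      ∑ x, if y - x ∈ K ∨ z - x ∈ K then |ind K (y - x) - ind B x| else 0 := by
    rw [← sum_shift K y, cn, cn, ← sum_sub_distrib, ← sum_add_distrib]
    refine sum_congr rfl fun x _ => ?_
    have := hd x
    by_cases h1 : y - x ∈ K <;> by_cases h2 : z - x ∈ K <;> by_cases h3 : x ∈ B <;>
      simp_all [ind]
  rw [← sum_dev, e]
  refine T_dev_gen k _ (fun x => y - x ∈ K ∨ z - x ∈ K) (abs_dev_le B K y) fun a ha => ?_
  have p1 : ∀ x, y - x ∈ K → 0 ≤ ind K (y - x) - ind B x := fun x hx => by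
    have := ind_le_one B x
    simp only [ind, hx, if_true] at this ⊢
    linarith
  have p2 : ∀ x, y - x ∉ K → ind K (y - x) - ind B x ≤ 0 := fun x hx => by
    have := ind_nonneg B x
    simp only [ind, hx, if_false] at this ⊢
    linarith
  have key : ∀ s : Finset (Fin k),
      (0 ≤ ∏ i ∈ s, (ind K (y - a i) - ind B (a i)) ∧ ∑ i ∈ s, (y - a i) ∈ K) ∨
      (∏ i ∈ s, (ind K (y - a i) - ind B (a i)) ≤ 0 ∧ ∑ i ∈ s, (y - a i) - (y - z) ∈ K) := by
    intro s
    induction s using Finset.cons_induction with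
    | empty => left; simpa using k0
    | cons i s hi ih =>
      rw [prod_cons, sum_cons]
      rcases ha i with h | h <;> rcases ih with ⟨q1, q2⟩ | ⟨q1, q2⟩
      · exact Or.inl ⟨mul_nonneg (p1 _ h) q1, ka _ h _ q2⟩
      · exact Or.inr ⟨mul_nonpos_of_nonneg_of_nonpos (p1 _ h) q1, by
          rw [add_sub_assoc]; exact ka _ h _ q2⟩
      · refine Or.inr ⟨mul_nonpos_of_nonpos_of_nonneg (p2 _ fun h' => hd _ h' h) q1, ?_⟩
        rw [show y - a i + ∑ i ∈ s, (y - a i) - (y - z) = z - a i + ∑ i ∈ s, (y - a i) by abel]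
        exact ka _ h _ q2
      · refine Or.inl ⟨mul_nonneg_of_nonpos_of_nonpos (p2 _ fun h' => hd _ h' h) q1, ?_⟩
        rw [show y - a i + ∑ i ∈ s, (y - a i) =
          z - a i + (∑ i ∈ s, (y - a i) - (y - z)) + (y - z + (y - z)) by abel]
        exact ka _ (ka _ h _ q2) _ h2
  have e2 : ∑ i, (y - a i) = y - ∑ i, a i - (y - k • y) := by
    rw [sum_sub_distrib, sum_const, card_univ, Fintype.card_fin]; abel
  rcases key univ with ⟨q1, q2⟩ | ⟨q1, q2⟩
  · refine mul_nonneg q1 (p1 _ ?_)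
    simpa [e2] using ka _ q2 _ hg
  · refine mul_nonneg_of_nonpos_of_nonpos q1 (p2 _ fun h => hz ?_)
    rw [e2] at q2
    simpa using ks _ (ks _ h _ hg) _ q2

lemma T_dev_even {k : ℕ} (hk : Even k) (B K : Finset G) (y : G) :
    T k K (fun z => ind K (y - z) - ind B z) ≤
      (K.card + B.card - 2 * cn B K y) ^ (k + 1) - (B.card - cn B K y) ^ (k + 1) := by
  have e : (B.card : ℝ) - cn B K y = ∑ z, (ind B z - ind B z * ind K (y - z)) := by
    rw [sum_sub_distrib, sum_ind, cn]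
  rw [← sum_dev, e, pow_succ, pow_succ, ← sum_prod, ← sum_prod, sum_mul, sum_mul,
    ← sum_sub_distrib]
  refine sum_le_sum fun a _ => ?_
  by_cases ha : ∀ i, y - a i ∉ K
  · have e1 : ∏ i, (ind K (y - a i) - ind B (a i)) = ∏ i, ind B (a i) := by
      rw [prod_congr rfl fun i _ => show ind K (y - a i) - ind B (a i) = -1 * ind B (a i) by
        rw [ind, if_neg (ha i)]; ring, prod_mul_distrib, prod_const, card_univ, Fintype.card_fin,
        hk.neg_one_pow, one_mul]
    have e2 : ∏ i, |ind K (y - a i) - ind B (a i)| = ∏ i, ind B (a i) := by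
      rw [← abs_prod, e1, abs_of_nonneg (prod_nonneg fun i _ => ind_nonneg _ _)]
    have e3 : ∏ i, (ind B (a i) - ind B (a i) * ind K (y - a i)) = ∏ i, ind B (a i) :=
      prod_congr rfl fun i _ => by simp [ind, ha i]
    rw [e1, e2, e3, ← mul_sub, ← sum_sub_distrib]
    refine mul_le_mul_of_nonneg_left (sum_le_sum fun z _ => ?_)
      (prod_nonneg fun i _ => ind_nonneg _ _)
    by_cases h1 : ∑ i, a i - z ∈ K <;> by_cases h2 : y - z ∈ K <;> by_cases h3 : z ∈ B <;>
      simp [ind, h1, h2, h3]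
  · push Not at ha
    obtain ⟨i, hi⟩ := ha
    rw [prod_eq_zero (f := fun i => ind B (a i) - ind B (a i) * ind K (y - a i)) (mem_univ i)
      (by simp [ind, hi]), zero_mul, sub_zero]
    refine (le_abs_self _).trans ?_
    rw [abs_mul, abs_prod]
    refine mul_le_mul_of_nonneg_left ((abs_sum_le_sum_abs _ _).trans (sum_le_sum fun z _ => ?_))
      (prod_nonneg fun i _ => abs_nonneg _)
    rw [abs_mul, abs_of_nonneg (ind_nonneg K _)]
    exact mul_le_of_le_one_right (abs_nonneg _) (ind_le_one _ _)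

lemma split {S : Finset (AddChar G ℂ)} {K : Finset G} (hD : Dual S K) {k : ℕ} (hk : Even k)
    (h f : G → ℝ) (hv : ∀ ψ ∉ S, Fh h ψ = 0) :
    (Fintype.card G : ℝ) * T k {0} f = S.card * (T k K f + T k K fun z => h z - f z)
      - Fintype.card G * T k {0} fun z => h z - f z := by
  classical
  have h1 := four (dual_univ (G := G)) k f
  have h2 := four (dual_univ (G := G)) k fun z => h z - f z
  rw [card_univ, AddChar.card_eq, ← sum_add_sum_compl S, four hD] at h1 h2
  have h3 : ∑ ψ ∈ Sᶜ, Rr k (fun z => h z - f z) ψ = -∑ ψ ∈ Sᶜ, Rr k f ψ := by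
    rw [← sum_neg_distrib]
    refine sum_congr rfl fun ψ hψ => ?_
    have e : Fh (fun z => h z - f z) ψ = -Fh f ψ := by
      rw [← zero_sub, ← hv ψ (mem_compl.1 hψ), Fh, Fh, Fh, ← sum_sub_distrib]
      exact sum_congr rfl fun z _ => by push_cast; ring
    rw [Rr, Rr, e, hk.neg_pow, map_neg, mul_neg, Complex.neg_re]
  linarith

lemma tail (B : Finset G) (j : ℕ) (η θ : ℝ) (h1 : η ≤ 1) (h : (1 - η) ^ j ≤ θ)
    (S : Finset (AddChar G ℂ)) (hS : Gam B η ⊆ S) :
    (Fintype.card G : ℝ) * T (2 * j + 2) {0} (ind B) ≤ ∑ ψ ∈ S, Rr (2 * j + 2) (ind B) ψ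
      + θ * (B.card : ℝ) ^ (2 * j + 1) * (Fintype.card G * B.card) := by
  classical
  have h2 := four (dual_univ (G := G)) (2 * j + 2) (ind B)
  have hθ : 0 ≤ θ := le_trans (pow_nonneg (by linarith) j) h
  rw [card_univ, AddChar.card_eq, ← sum_add_sum_compl S] at h2
  rw [← h2, ← parseval, mul_sum]
  refine add_le_add_right (le_trans (sum_le_sum fun ψ hψ => ?_)
    (sum_le_sum_of_subset_of_nonneg (subset_univ Sᶜ) fun _ _ _ => by positivity)) _
  have h3 : ‖Fh (ind B) ψ‖ ^ 2 ≤ (1 - η) * (B.card : ℝ) ^ 2 := by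
    have : ψ ∉ Gam B η := fun h' => mem_compl.1 hψ (hS h')
    simp only [Gam, mem_filter, mem_univ, true_and, not_le] at this
    linarith
  have h4 := norm_le B ψ
  calc Rr (2 * j + 2) (ind B) ψ ≤ ‖Fh (ind B) ψ‖ ^ (2 * j + 2 + 1) := Rr_le _ _ _
    _ = (‖Fh (ind B) ψ‖ ^ 2) ^ j * ‖Fh (ind B) ψ‖ * ‖Fh (ind B) ψ‖ ^ 2 := by ring
    _ ≤ ((1 - η) * (B.card : ℝ) ^ 2) ^ j * B.card * ‖Fh (ind B) ψ‖ ^ 2 := by gcongr
    _ = (1 - η) ^ j * (B.card : ℝ) ^ (2 * j + 1) * ‖Fh (ind B) ψ‖ ^ 2 := by rw [mul_pow]; ring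
    _ ≤ _ := by gcongr

end Pool.Agent.MP_ed46bc_co.LD
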