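import Pool.Agent.MP_ed46bc_co.LD.Main
import Pool.Agent.MP_ed46bc_co.Groups
import Pool.Agent.MP_ed46bc_co.SD.SECA
import Pool.Agent.MP_ed46bc_co.LK.NORM

/-!
# Long even sums: the construction and the final statement
-/

namespace Pool.Agent.MP_ed46bc_co.LD

open Finset

universe u

variable {G : Type u} [AddCommGroup G] [Fintype G] [DecidableEq G]

/-- The number of ordered `k`-tuples of elements of `A` whose sum lies in `A`. -/
def P (k : ℕ) (A : Finset G) : ℕ :=
  (univ.filter fun a : Fin k → G => (∀ i, a i ∈ A) ∧ ∑ i, a i ∈ A).card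

lemma P_eq (k : ℕ) (A : Finset G) : (P k A : ℝ) = T k {0} (ind A) := by
  rw [P, card_filter, T_zero]
  push_cast
  refine sum_congr rfl fun a _ => ?_
  simp only [ind, prod_boole, mem_univ, forall_true_left]
  by_cases h1 : ∀ i, a i ∈ A <;> by_cases h2 : ∑ i, a i ∈ A <;> simp [h1, h2]

lemma P_add (S : Finset G) (h0 : 0 ∈ S) (hS : ∀ x ∈ S, ∀ y ∈ S, x - y ∈ S) (A : Finset G)
    (hA : A ⊆ S) {k : ℕ} (hk : Even k) : (P k A : ℝ) + P k (S \ A) =
      ((A.card : ℝ) ^ (k + 1) + ((S \ A).card : ℝ) ^ (k + 1)) / S.card := by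
  have h := P_compl S h0 hS A hA hk
  rw [sum_R_eq, sum_R_eq] at h
  have h2 := congrArg (fun x : ℚ => (x : ℝ)) h
  push_cast at h2
  exact h2

lemma attained {k N q c : ℕ} (hk : Even k) (hk0 : 0 < k) (hN : N ∣ Fintype.card G) (h1 : q ∣ N)
    (h2 : q ∣ AddMonoid.exponent G) (h3 : ¬ q ∣ k - 1) (h4 : q * c ≤ N) :
    ∃ B : Finset G, B.card + c = N ∧
      (P k B : ℝ) = ((B.card : ℝ) ^ (k + 1) + (c : ℝ) ^ (k + 1)) / N := by
  classical
  obtain ⟨κ, rfl⟩ := h1
  have hq0 : q ≠ 0 := by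
    rintro rfl
    simp at hN
  have hq1 : q ≠ 1 := by
    rintro rfl
    exact h3 (one_dvd _)
  obtain ⟨r, rfl⟩ : ∃ r, q = r + 2 := ⟨q - 2, by omega⟩
  obtain ⟨K, p, hp, hK⟩ := SD.seca G κ (r + 2) (mul_comm κ _ ▸ hN) h2
  obtain ⟨n1, n2, -⟩ := LK.norm_thm K r p 0 hp
  have hκ : Nat.card p.ker = κ := by
    rw [← Nat.card_eq_fintype_card, hK] at n1
    exact (Nat.eq_of_mul_eq_mul_right (by omega) n1).symm
  obtain ⟨C, hC, hc⟩ := exists_subset_card_eq (s := univ.filter fun x : K => p x = 1) (n := c)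
    (by rw [n2, hκ]; exact Nat.le_of_mul_le_mul_left h4 (by omega))
  set S : Finset G := univ.filter fun x => x ∈ K with hS
  have hSc : S.card = (r + 2) * κ := by
    rw [mul_comm, ← hK, Nat.card_eq_fintype_card, Fintype.card_subtype]
  set C' : Finset G := C.map (Function.Embedding.subtype _) with hC'
  have hc' : C'.card = c := by rw [hC', card_map, hc]
  have hsub : C' ⊆ S := by
    intro x hx
    obtain ⟨z, -, rfl⟩ := mem_map.1 hx
    simp [hS]
  have hz : P k C' = 0 := by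
    rw [P, card_eq_zero, filter_eq_empty_iff]
    rintro a - ⟨ha, hs⟩
    choose z hz e using fun i => mem_map.1 (ha i)
    obtain ⟨w, hw, e'⟩ := mem_map.1 hs
    have e1 : w = ∑ i, z i := by
      apply Subtype.ext
      rw [AddSubmonoidClass.coe_finsetSum]
      exact e'.trans (sum_congr rfl fun i _ => (e i).symm)
    have e2 := (mem_filter.1 (hC hw)).2
    rw [e1, map_sum, sum_congr rfl fun i _ => (mem_filter.1 (hC (hz i))).2, sum_const, card_univ,
      Fintype.card_fin, nsmul_one] at e2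
    refine h3 ((ZMod.natCast_eq_zero_iff _ _).1 ?_)
    rw [Nat.cast_sub hk0, e2, Nat.cast_one, sub_self]
  have h := P_add S (by simp [hS]) (fun x hx y hy => by
    simp only [hS, mem_filter, mem_univ, true_and] at hx hy ⊢
    exact K.sub_mem hx hy) C' hsub hk
  refine ⟨S \ C', by rw [← hc', card_sdiff_add_card_eq_card hsub, hSc], ?_⟩
  rw [hz, hc', hSc, Nat.cast_zero, zero_add] at h
  rw [h, add_comm]

theorem final (k m b M q : ℕ) (hk : Even k) (hk0 : 10000 ≤ k) (hmb : m + b = Fintype.card G)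
    (hM : M ∣ Fintype.card G) (hbM : b ≤ M) (q1 : q ∣ M) (q2 : q ∣ AddMonoid.exponent G)
    (q3 : ¬ q ∣ k - 1) (q4 : q * (M - b) ≤ M)
    (h1 : ∀ D : ℕ, D ∣ Fintype.card G → b ≤ D → D < M → phi k b D ≤ phi k b M)
    (h2 : ∀ D : ℕ, D ∣ Fintype.card G → D < b →
      (1 - 130 * Real.log (100 * k) / k) * b < D → phi k b (2 * D) ≤ phi k b M) :
    ((sInf {p : ℕ | ∃ A : Finset G, A.card = m ∧ P k A = p} : ℕ) : ℝ) =
      ((m : ℝ) ^ (k + 1) + (b : ℝ) ^ (k + 1)) / Fintype.card G - phi k b M := by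
  have hM0 : 0 < M := Nat.pos_of_dvd_of_pos hM Fintype.card_pos
  have hMb : M ≤ 2 * b := by
    have a1 : q ≠ 0 := by
      rintro rfl
      exact hM0.ne' (zero_dvd_iff.1 q1)
    have a2 : q ≠ 1 := by
      rintro rfl
      exact q3 (one_dvd _)
    have a3 := Nat.mul_le_mul_right (M - b) (show 2 ≤ q by omega)
    omega
  have hc : ∀ A : Finset G, A.card = m → (univ \ A).card = b ∧ (P k A : ℝ) + P k (univ \ A) =
      ((m : ℝ) ^ (k + 1) + (b : ℝ) ^ (k + 1)) / Fintype.card G := by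
    intro A hA
    have h1 : (univ \ A).card = b := by
      rw [card_sdiff_of_subset (subset_univ _), card_univ, hA]; omega
    have := P_add univ (mem_univ _) (fun _ _ _ _ => mem_univ _) A (subset_univ _) hk
    rw [hA, h1, card_univ] at this
    exact ⟨h1, this⟩
  obtain ⟨B, hB, hP⟩ := attained hk (by omega) hM q1 q2 q3 q4
  have hB' : B.card = b := by omega
  have hA : (univ \ B).card = m := by
    rw [card_sdiff_of_subset (subset_univ _), card_univ, hB']; omega
  have h4 := (hc _ hA).2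
  rw [Finset.sdiff_sdiff_eq_self (subset_univ _), hP, hB', Nat.cast_sub hbM, ← phi] at h4
  have hmem : P k (univ \ B) ∈ {p : ℕ | ∃ A : Finset G, A.card = m ∧ P k A = p} := ⟨_, hA, rfl⟩
  have h5 : sInf {p : ℕ | ∃ A : Finset G, A.card = m ∧ P k A = p} = P k (univ \ B) := by
    refine le_antisymm (Nat.sInf_le hmem) (le_csInf ⟨_, hmem⟩ ?_)
    rintro p ⟨A, hA', rfl⟩
    obtain ⟨h6, h7⟩ := hc A hA'
    have h8 := upper k M hk hk0 (univ \ A) hM0 (h6 ▸ hbM) (h6 ▸ hMb) (h6 ▸ h1) (h6 ▸ h2)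
    rw [← P_eq, h6] at h8
    have : (P k (univ \ B) : ℝ) ≤ P k A := by linarith
    exact_mod_cast this
  rw [h5]
  linarith

end Pool.Agent.MP_ed46bc_co.LD
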