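import Mathlib

/-!
# Long even sums: Fourier expansion, the large spectrum is a subgroup, duality
-/

namespace Pool.Agent.MP_ed46bc_co.LD

open Finset

universe u

variable {G : Type u} [AddCommGroup G] [Fintype G] [DecidableEq G]

/-- Indicator function. -/
def ind (A : Finset G) (x : G) : ℝ := if x ∈ A then 1 else 0

/-- Fourier coefficient. -/
noncomputable def Fh (f : G → ℝ) (ψ : AddChar G ℂ) : ℂ := ∑ x, (f x : ℂ) * ψ x

/-- The contribution of one character. -/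
noncomputable def Rr (k : ℕ) (f : G → ℝ) (ψ : AddChar G ℂ) : ℝ :=
  (Fh f ψ ^ k * (starRingEnd ℂ) (Fh f ψ)).re

/-- Weighted number of tuples with `a₁ + ⋯ + a_k - z ∈ K`. -/
def T (k : ℕ) (K : Finset G) (f : G → ℝ) : ℝ :=
  ∑ a : Fin k → G, (∏ i, f (a i)) * ∑ z, f z * ind K (∑ i, a i - z)

/-- The characters in `S` detect `K`. -/
def Dual (S : Finset (AddChar G ℂ)) (K : Finset G) : Prop :=
  ∀ x, ∑ ψ ∈ S, ψ x = (S.card : ℂ) * ((ind K x : ℝ) : ℂ)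

omit [AddCommGroup G] [Fintype G] in
lemma ind_nonneg (A : Finset G) (x : G) : 0 ≤ ind A x := by
  unfold ind; split_ifs <;> norm_num

omit [AddCommGroup G] [Fintype G] in
lemma ind_le_one (A : Finset G) (x : G) : ind A x ≤ 1 := by
  unfold ind; split_ifs <;> norm_num

omit [AddCommGroup G] in
lemma sum_ind (A : Finset G) : ∑ x, ind A x = A.card := by simp [ind]

omit [Fintype G] [DecidableEq G] in
lemma char_sum {ι : Type} (s : Finset ι) (a : ι → G) (ψ : AddChar G ℂ) :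
    ψ (∑ i ∈ s, a i) = ∏ i ∈ s, ψ (a i) := by
  induction s using Finset.cons_induction with
  | empty => simp
  | cons i s hi ih => rw [sum_cons, prod_cons, AddChar.map_add_eq_mul, ih]

omit [DecidableEq G] in
lemma Fh_conj (f : G → ℝ) (ψ : AddChar G ℂ) :
    (starRingEnd ℂ) (Fh f ψ) = ∑ x, (f x : ℂ) * ψ (-x) := by
  rw [Fh, map_sum]
  exact sum_congr rfl fun x _ => by rw [map_mul, Complex.conj_ofReal, AddChar.map_neg_eq_conj]

omit [DecidableEq G] in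
lemma Fh_term (k : ℕ) (f : G → ℝ) (ψ : AddChar G ℂ) :
    Fh f ψ ^ k * (starRingEnd ℂ) (Fh f ψ) =
      ∑ a : Fin k → G, ∑ z, (∏ i, (f (a i) : ℂ)) * ((f z : ℂ) * ψ (∑ i, a i - z)) := by
  have h : Fh f ψ ^ k = ∑ a : Fin k → G, (∏ i, (f (a i) : ℂ)) * ψ (∑ i, a i) := by
    classical
    rw [Fh, ← Fin.prod_const, prod_univ_sum, Fintype.piFinset_univ]
    exact sum_congr rfl fun a _ => by rw [prod_mul_distrib, char_sum]
  rw [h, Fh_conj, sum_mul_sum]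
  refine sum_congr rfl fun a _ => sum_congr rfl fun z _ => ?_
  rw [sub_eq_add_neg, AddChar.map_add_eq_mul]
  ring

lemma four {S : Finset (AddChar G ℂ)} {K : Finset G} (h : Dual S K) (k : ℕ) (f : G → ℝ) :
    ∑ ψ ∈ S, Rr k f ψ = S.card * T k K f := by
  have h1 : ∑ ψ ∈ S, Fh f ψ ^ k * (starRingEnd ℂ) (Fh f ψ) = ((S.card * T k K f : ℝ) : ℂ) := by
    rw [sum_congr rfl fun ψ _ => Fh_term k f ψ, sum_comm, T]
    push_cast
    rw [mul_sum]
    refine sum_congr rfl fun a _ => ?_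
    rw [sum_comm, mul_sum, mul_sum]
    refine sum_congr rfl fun z _ => ?_
    rw [← mul_sum, ← mul_sum, h]
    ring
  have h2 := congrArg Complex.re h1
  rwa [Complex.re_sum, Complex.ofReal_re] at h2

lemma dual_univ : Dual (univ : Finset (AddChar G ℂ)) ({0} : Finset G) := by
  intro x
  rw [AddChar.sum_apply_eq_ite, card_univ, AddChar.card_eq]
  by_cases h : x = 0 <;> simp [ind, h]

lemma T_zero (k : ℕ) (f : G → ℝ) :
    T k {0} f = ∑ a : Fin k → G, (∏ i, f (a i)) * f (∑ i, a i) := by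
  refine sum_congr rfl fun a _ => ?_
  congr 1
  simp [ind, sub_eq_zero]

lemma T_one (K : Finset G) (f : G → ℝ) :
    T 1 K f = ∑ x, f x * ∑ z, f z * ind K (x - z) := by
  rw [T]
  exact Fintype.sum_equiv (Equiv.funUnique (Fin 1) G) _ _ fun a => by simp

omit [DecidableEq G] in
lemma Rr_one (f : G → ℝ) (ψ : AddChar G ℂ) : Rr 1 f ψ = ‖Fh f ψ‖ ^ 2 := by
  rw [Rr, pow_one, Complex.mul_conj, Complex.ofReal_re, Complex.normSq_eq_norm_sq]

omit [DecidableEq G] in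
lemma Rr_le (k : ℕ) (f : G → ℝ) (ψ : AddChar G ℂ) : Rr k f ψ ≤ ‖Fh f ψ‖ ^ (k + 1) := by
  refine (Complex.re_le_norm _).trans (le_of_eq ?_)
  rw [norm_mul, norm_pow, Complex.norm_conj, pow_succ]

lemma parseval (B : Finset G) :
    ∑ ψ : AddChar G ℂ, ‖Fh (ind B) ψ‖ ^ 2 = (Fintype.card G : ℝ) * B.card := by
  have h := four (dual_univ (G := G)) 1 (ind B)
  rw [card_univ, AddChar.card_eq, T_one] at h
  rw [← sum_congr rfl fun ψ _ => Rr_one (ind B) ψ, h]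
  congr 1
  simp [ind, sub_eq_zero]

lemma norm_le (B : Finset G) (ψ : AddChar G ℂ) : ‖Fh (ind B) ψ‖ ≤ B.card := by
  rw [← sum_ind, Fh]
  refine (norm_sum_le _ _).trans (le_of_eq (sum_congr rfl fun x _ => ?_))
  rw [norm_mul, AddChar.norm_apply, mul_one, Complex.norm_real, Real.norm_of_nonneg (ind_nonneg _ _)]

omit [DecidableEq G] in
lemma norm_neg_char (f : G → ℝ) (ψ : AddChar G ℂ) : ‖Fh f (-ψ)‖ = ‖Fh f ψ‖ := by
  rw [← Complex.norm_conj (Fh f ψ), Fh_conj]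
  rfl

omit [DecidableEq G] in
lemma defect (f : G → ℝ) (ψ : AddChar G ℂ) :
    (∑ x, f x) ^ 2 - ‖Fh f ψ‖ ^ 2 = ∑ x, ∑ z, f x * f z * (1 - (ψ (x - z)).re) := by
  have h : ‖Fh f ψ‖ ^ 2 = ∑ x, ∑ z, f x * f z * (ψ (x - z)).re := by
    rw [← Complex.normSq_eq_norm_sq, ← Complex.ofReal_re (Complex.normSq _), ← Complex.mul_conj,
      Fh_conj, Fh, sum_mul_sum, Complex.re_sum]
    refine sum_congr rfl fun x _ => ?_
    rw [Complex.re_sum]
    refine sum_congr rfl fun z _ => ?_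
    rw [sub_eq_add_neg, AddChar.map_add_eq_mul, ← Complex.re_ofReal_mul]
    congr 1
    push_cast
    ring
  rw [h, sq, sum_mul_sum, ← sum_sub_distrib]
  refine sum_congr rfl fun x _ => ?_
  rw [← sum_sub_distrib]
  exact sum_congr rfl fun z _ => by ring

lemma unit_ineq (z w : ℂ) (hz : ‖z‖ = 1) (hw : ‖w‖ = 1) :
    1 - (z * w).re ≤ 2 * (1 - z.re) + 2 * (1 - w.re) := by
  have h1 : z.re * z.re + z.im * z.im = 1 := by
    rw [← Complex.normSq_apply, Complex.normSq_eq_norm_sq, hz]; norm_num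
  have h2 : w.re * w.re + w.im * w.im = 1 := by
    rw [← Complex.normSq_apply, Complex.normSq_eq_norm_sq, hw]; norm_num
  rw [Complex.mul_re]
  nlinarith [sq_nonneg (z.re + w.re - 2), sq_nonneg (w.im - z.im)]

lemma defect_add (B : Finset G) (ψ φ : AddChar G ℂ) :
    (B.card : ℝ) ^ 2 - ‖Fh (ind B) (ψ + φ)‖ ^ 2 ≤
      2 * ((B.card : ℝ) ^ 2 - ‖Fh (ind B) ψ‖ ^ 2) + 2 * ((B.card : ℝ) ^ 2 - ‖Fh (ind B) φ‖ ^ 2) := by
  rw [← sum_ind, defect, defect, defect, mul_sum, mul_sum, ← sum_add_distrib]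
  refine sum_le_sum fun x _ => ?_
  rw [mul_sum, mul_sum, ← sum_add_distrib]
  refine sum_le_sum fun z _ => ?_
  have h := mul_le_mul_of_nonneg_left
    (unit_ineq _ _ (AddChar.norm_apply ψ (x - z)) (AddChar.norm_apply φ (x - z)))
    (mul_nonneg (ind_nonneg B x) (ind_nonneg B z))
  rw [AddChar.add_apply]
  linarith

/-- The large spectrum. -/
noncomputable def Gam (B : Finset G) (η : ℝ) : Finset (AddChar G ℂ) :=
  univ.filter fun ψ => (B.card : ℝ) ^ 2 - ‖Fh (ind B) ψ‖ ^ 2 ≤ η * (B.card : ℝ) ^ 2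

lemma Gam_mono (B : Finset G) {η η' : ℝ} (h : η ≤ η') : Gam B η ⊆ Gam B η' := by
  intro ψ hψ
  simp only [Gam, mem_filter, mem_univ, true_and] at hψ ⊢
  exact hψ.trans (mul_le_mul_of_nonneg_right h (by positivity))

/-- A large spectrum that carries more than half of the mass of the next one generates a subgroup
of large coefficients. -/
lemma exists_sub (B : Finset G) (η : ℝ) (h0 : 0 ≤ η) (h1 : 16 * η ≤ 1)
    (h : ∑ ψ ∈ Gam B (16 * η), ‖Fh (ind B) ψ‖ ^ 2 <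
      (2 - 16 * η) * ∑ ψ ∈ Gam B η, ‖Fh (ind B) ψ‖ ^ 2) :
    ∃ S : Finset (AddChar G ℂ), Gam B η ⊆ S ∧ 0 ∈ S ∧ (∀ ψ ∈ S, -ψ ∈ S) ∧
      (∀ ψ ∈ S, ∀ φ ∈ S, ψ + φ ∈ S) ∧
      ∀ ψ ∈ S, (B.card : ℝ) ^ 2 - ‖Fh (ind B) ψ‖ ^ 2 ≤ 4 * η * (B.card : ℝ) ^ 2 := by
  classical
  have hm : ∀ ψ, ψ ∈ Gam B η ↔
      (B.card : ℝ) ^ 2 - ‖Fh (ind B) ψ‖ ^ 2 ≤ η * (B.card : ℝ) ^ 2 := fun ψ => by simp [Gam]
  have hz : (0 : AddChar G ℂ) ∈ Gam B η := by
    rw [hm, ← sum_ind, defect]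
    simp only [AddChar.zero_apply, Complex.one_re, sub_self, mul_zero, sum_const_zero]
    positivity
  have hn : ∀ ψ ∈ Gam B η, -ψ ∈ Gam B η := fun ψ hψ => by
    rwa [hm, norm_neg_char, ← hm]
  have h2 : ∀ α ∈ Gam B η, ∀ β ∈ Gam B η,
      (B.card : ℝ) ^ 2 - ‖Fh (ind B) (α + β)‖ ^ 2 ≤ 4 * η * (B.card : ℝ) ^ 2 := by
    intro α hα β hβ
    have := defect_add B α β
    rw [hm] at hα hβ
    linarith
  set S : Finset (AddChar G ℂ) :=
    univ.filter fun ψ => ∃ α ∈ Gam B η, ∃ β ∈ Gam B η, ψ = α + β with hS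
  have hmS : ∀ ψ, ψ ∈ S ↔ ∃ α ∈ Gam B η, ∃ β ∈ Gam B η, ψ = α + β := fun ψ => by simp [hS]
  have key : ∀ α ∈ Gam B η, ∀ β ∈ Gam B η, ∀ γ ∈ Gam B η, α + β + γ ∈ S := by
    intro α hα β hβ γ hγ
    by_contra hc
    have hd : Disjoint (Gam B η) ((Gam B η).image fun ν => α + β + γ + ν) := by
      rw [disjoint_left]
      intro μ hμ hμ'
      obtain ⟨ν, hν, e⟩ := mem_image.1 hμ'
      exact hc ((hmS _).2 ⟨μ, hμ, -ν, hn ν hν, by rw [← e]; abel⟩)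
    have h5 : ∀ ν ∈ Gam B η, (B.card : ℝ) ^ 2 - ‖Fh (ind B) (α + β + γ + ν)‖ ^ 2 ≤
        16 * η * (B.card : ℝ) ^ 2 := by
      intro ν hν
      have a1 := defect_add B (α + β) (γ + ν)
      have a2 := h2 α hα β hβ
      have a3 := h2 γ hγ ν hν
      rw [add_assoc (α + β)]
      linarith
    have h3 : ∑ ψ ∈ Gam B η, ‖Fh (ind B) ψ‖ ^ 2 +
        ∑ ν ∈ Gam B η, ‖Fh (ind B) (α + β + γ + ν)‖ ^ 2 ≤
        ∑ ψ ∈ Gam B (16 * η), ‖Fh (ind B) ψ‖ ^ 2 := by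
      rw [← sum_image (f := fun ψ => ‖Fh (ind B) ψ‖ ^ 2)
        (g := fun ν => α + β + γ + ν) fun x _ y _ e => add_left_cancel e, ← sum_union hd]
      refine sum_le_sum_of_subset_of_nonneg
        (union_subset (Gam_mono B (by linarith)) fun μ hμ => ?_) fun _ _ _ => by positivity
      obtain ⟨ν, hν, rfl⟩ := mem_image.1 hμ
      simpa [Gam] using h5 ν hν
    have h4 : (1 - 16 * η) * ∑ ψ ∈ Gam B η, ‖Fh (ind B) ψ‖ ^ 2 ≤
        ∑ ν ∈ Gam B η, ‖Fh (ind B) (α + β + γ + ν)‖ ^ 2 := by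
      rw [mul_sum]
      refine sum_le_sum fun ν hν => ?_
      have a1 := h5 ν hν
      have a4 : ‖Fh (ind B) ν‖ ^ 2 ≤ (B.card : ℝ) ^ 2 :=
        pow_le_pow_left₀ (norm_nonneg _) (norm_le B ν) 2
      have a5 := mul_le_mul_of_nonneg_left a4 (show 0 ≤ 1 - 16 * η by linarith)
      linarith
    linarith
  refine ⟨S, fun ψ hψ => (hmS _).2 ⟨ψ, hψ, 0, hz, by simp⟩, (hmS _).2 ⟨0, hz, 0, hz, by simp⟩,
    ?_, ?_, ?_⟩
  · intro ψ hψ
    obtain ⟨α, hα, β, hβ, rfl⟩ := (hmS _).1 hψ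
    exact (hmS _).2 ⟨-α, hn α hα, -β, hn β hβ, by abel⟩
  · intro ψ hψ φ hφ
    obtain ⟨α, hα, β, hβ, rfl⟩ := (hmS _).1 hψ
    obtain ⟨γ, hγ, ν, hν, rfl⟩ := (hmS _).1 hφ
    obtain ⟨μ, hμ, κ, hκ, e⟩ := (hmS _).1 (key α hα β hβ γ hγ)
    rw [← add_assoc, e]
    exact key μ hμ κ hκ ν hν
  · intro ψ hψ
    obtain ⟨α, hα, β, hβ, rfl⟩ := (hmS _).1 hψ
    exact h2 α hα β hβ

/-- Two levels suffice when the large spectrum carries almost half of the mass. -/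
lemma exists_sub_two (B : Finset G) (η : ℝ) (h0 : 0 ≤ η) (h1 : 320 * η ≤ 1) (hB : 0 < B.card)
    (h : 49 / 100 * ((Fintype.card G : ℝ) * B.card) ≤ ∑ ψ ∈ Gam B η, ‖Fh (ind B) ψ‖ ^ 2) :
    ∃ S : Finset (AddChar G ℂ), Gam B η ⊆ S ∧ 0 ∈ S ∧ (∀ ψ ∈ S, -ψ ∈ S) ∧
      (∀ ψ ∈ S, ∀ φ ∈ S, ψ + φ ∈ S) ∧
      ∀ ψ ∈ S, (B.card : ℝ) ^ 2 - ‖Fh (ind B) ψ‖ ^ 2 ≤ 64 * η * (B.card : ℝ) ^ 2 := by
  by_cases hc : ∑ ψ ∈ Gam B (16 * η), ‖Fh (ind B) ψ‖ ^ 2 <
      (2 - 16 * η) * ∑ ψ ∈ Gam B η, ‖Fh (ind B) ψ‖ ^ 2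
  · obtain ⟨S, a1, a2, a3, a4, a5⟩ := exists_sub B η h0 (by linarith) hc
    exact ⟨S, a1, a2, a3, a4, fun ψ hψ => (a5 ψ hψ).trans
      (mul_le_mul_of_nonneg_right (by linarith) (by positivity))⟩
  · have hn : (0 : ℝ) < (Fintype.card G : ℝ) * B.card := by
      have := Fintype.card_pos (α := G)
      positivity
    have b1 : ∑ ψ ∈ Gam B (16 * (16 * η)), ‖Fh (ind B) ψ‖ ^ 2 ≤ (Fintype.card G : ℝ) * B.card := by
      rw [← parseval]
      exact sum_le_sum_of_subset_of_nonneg (subset_univ _) fun _ _ _ => by positivity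
    have b2 := mul_le_mul (show 39 / 20 ≤ 2 - 16 * η by linarith) h (by positivity) (by linarith)
    have b3 := mul_le_mul (show 6 / 5 ≤ 2 - 16 * (16 * η) by linarith) (b2.trans (not_lt.1 hc))
      (by positivity) (by linarith)
    obtain ⟨S, a1, a2, a3, a4, a5⟩ := exists_sub B (16 * η) (by linarith) (by linarith)
      (by linarith)
    exact ⟨S, (Gam_mono B (by linarith)).trans a1, a2, a3, a4, fun ψ hψ => by
      have := a5 ψ hψ
      linarith⟩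

/-- The annihilator of a subgroup of characters. -/
lemma exists_dual (S : Finset (AddChar G ℂ)) (h0 : 0 ∈ S) (hn : ∀ ψ ∈ S, -ψ ∈ S)
    (ha : ∀ ψ ∈ S, ∀ φ ∈ S, ψ + φ ∈ S) :
    ∃ K : Finset G, Dual S K ∧ 0 ∈ K ∧ (∀ x ∈ K, ∀ y ∈ K, x - y ∈ K) ∧
      S.card * K.card = Fintype.card G ∧
      ∀ ψ ∉ S, ∀ y, Fh (fun x => ind K (y - x)) ψ = 0 := by
  classical
  set K : Finset G := univ.filter fun x => ∀ ψ ∈ S, ψ x = 1 with hK
  have hm : ∀ x, x ∈ K ↔ ∀ ψ ∈ S, ψ x = 1 := fun x => by simp [hK]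
  have hd : Dual S K := by
    intro x
    by_cases hx : x ∈ K
    · rw [sum_congr rfl fun ψ hψ => (hm x).1 hx ψ hψ]
      simp [ind, hx]
    · have hx' := hx
      rw [hm] at hx'
      push Not at hx'
      obtain ⟨φ, hφ, hφx⟩ := hx'
      have e : ∑ ψ ∈ S, ψ x = φ x * ∑ ψ ∈ S, ψ x := by
        rw [mul_sum]
        refine sum_nbij' (fun ψ => -φ + ψ) (fun ψ => φ + ψ) (fun ψ hψ => ha _ (hn _ hφ) _ hψ)
          (fun ψ hψ => ha _ hφ _ hψ) (fun ψ _ => by simp) (fun ψ _ => by simp) fun ψ _ => ?_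
        rw [← AddChar.add_apply]
        simp
      have e2 : (φ x - 1) * ∑ ψ ∈ S, ψ x = 0 := by linear_combination -e
      rw [(mul_eq_zero.1 e2).resolve_left (sub_ne_zero.2 hφx)]
      simp [ind, hx]
  have hS : (S.card : ℂ) ≠ 0 := by exact_mod_cast (card_pos.2 ⟨0, h0⟩).ne'
  refine ⟨K, hd, (hm _).2 fun ψ _ => by simp, fun x hx y hy => (hm _).2 fun ψ hψ => ?_, ?_, ?_⟩
  · rw [AddChar.map_sub_eq_div, (hm x).1 hx ψ hψ, (hm y).1 hy ψ hψ, div_one]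
  · have e : ∑ x, ∑ ψ ∈ S, ψ x = (Fintype.card G : ℂ) := by
      rw [sum_comm, sum_congr rfl fun ψ _ => AddChar.sum_eq_ite ψ]
      simp [h0]
    rw [sum_congr rfl fun x _ => hd x, ← mul_sum, ← Complex.ofReal_sum, sum_ind] at e
    exact_mod_cast e
  · intro ψ hψ y
    refine mul_left_cancel₀ hS ?_
    rw [Fh, mul_sum, mul_zero, sum_congr rfl fun x _ => by
      rw [← mul_assoc, ← hd, sum_mul], sum_comm]
    refine sum_eq_zero fun φ hφ => ?_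
    have e : ∀ x, φ (y - x) * ψ x = φ y * (-φ + ψ) x := fun x => by
      rw [AddChar.add_apply, AddChar.neg_apply, sub_eq_add_neg, AddChar.map_add_eq_mul, mul_assoc]
    rw [sum_congr rfl fun x _ => e x, ← mul_sum, AddChar.sum_eq_ite, if_neg, mul_zero]
    intro h
    exact hψ (neg_add_eq_zero.1 h ▸ hφ)

end Pool.Agent.MP_ed46bc_co.LD
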