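import Mathlib

/-!
# Long even sums: the numerical inequalities
-/

namespace Pool.Agent.MP_ed46bc_co.LD

lemma pow_diff {x y : ℝ} (hy : 0 ≤ y) (h : y ≤ x) (n : ℕ) :
    x ^ (n + 1) - y ^ (n + 1) ≤ (n + 1) * (x - y) * x ^ n := by
  induction n with
  | zero => simp
  | succ n ih =>
    have hx : 0 ≤ x := hy.trans h
    have h1 : y ^ (n + 1) ≤ x ^ (n + 1) := pow_le_pow_left₀ hy h _
    have h2 := mul_le_mul_of_nonneg_left ih hx
    have h3 := mul_le_mul_of_nonneg_left h1 (sub_nonneg.2 h)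
    push_cast
    rw [pow_succ x (n + 1), pow_succ y (n + 1)]
    rw [pow_succ x n] at *
    nlinarith

lemma add_one_mul_pow_le (x d : ℝ) (hx : 0 ≤ x) (hd : 0 ≤ d) (n : ℕ) :
    x ^ (n + 1) + (n + 1) * d * x ^ n ≤ (x + d) ^ (n + 1) := by
  induction n with
  | zero => simp
  | succ n ih =>
    have h2 := mul_le_mul_of_nonneg_right ih (add_nonneg hx hd)
    have h3 : 0 ≤ (n + 1) * d * x ^ n * d := by positivity
    push_cast
    rw [pow_succ (x + d) (n + 1), pow_succ x (n + 1)]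
    rw [pow_succ x n] at *
    linarith

/-- The deviation from the coset is small. -/
lemma num_dev (j : ℕ) (b c s θ : ℝ) (hb : 0 < b) (hc : 0 ≤ c) (hcs : c ≤ s)
    (h1 : s ≤ c + 10 * θ * b) (hθ : (1 / 2) ^ j ≤ θ) (h9 : 100 * (2 * j + 2) * θ ≤ 1)
    (h2 : c ^ (2 * j + 3) ≤ 2 * θ * b ^ (2 * j + 3)) :
    s ^ (2 * j + 1) ≤ 12 * θ * b ^ (2 * j + 1) := by
  have hθ0 : 0 ≤ θ := le_trans (by positivity) hθ
  have hs0 : 0 ≤ s := hc.trans hcs
  have hX : 0 < b ^ (2 * j + 1) := by positivity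
  rcases le_total s (1 / 2 * b) with h | h
  · calc s ^ (2 * j + 1) ≤ (1 / 2 * b) ^ (2 * j + 1) := pow_le_pow_left₀ hs0 h _
      _ = (1 / 2) ^ (2 * j + 1) * b ^ (2 * j + 1) := mul_pow _ _ _
      _ ≤ (1 / 2) ^ j * b ^ (2 * j + 1) :=
        mul_le_mul_of_nonneg_right (pow_le_pow_of_le_one (by norm_num) (by norm_num) (by omega))
          hX.le
      _ ≤ 12 * θ * b ^ (2 * j + 1) := mul_le_mul_of_nonneg_right (by linarith) hX.le
  · have d := pow_diff hc hcs (2 * j + 2)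
    push_cast at d
    have hY : 0 ≤ s ^ (2 * j + 1) := by positivity
    have e1 : s ^ (2 * j + 2) = s ^ (2 * j + 1) * s := by ring
    have e2 : s ^ (2 * j + 2 + 1) = s ^ (2 * j + 1) * s * s := by ring
    have e3 : b ^ (2 * j + 3) = b ^ (2 * j + 1) * b * b := by ring
    have hj : (0 : ℝ) ≤ j := Nat.cast_nonneg j
    have a1 : (2 * j + 2 + 1) * (s - c) ≤ 3 / 20 * b := by
      have a2 : (2 * j + 2 + 1) * (10 * θ) ≤ 3 / 20 := by nlinarith
      have a3 := mul_le_mul_of_nonneg_right a2 hb.le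
      have a4 := mul_le_mul_of_nonneg_left (show s - c ≤ 10 * θ * b by linarith)
        (show (0 : ℝ) ≤ 2 * j + 2 + 1 by positivity)
      linarith
    have a5 := mul_le_mul_of_nonneg_right a1 (show 0 ≤ s ^ (2 * j + 2) by positivity)
    have a6 : 7 / 40 * (b * b) ≤ s * (s - 3 / 20 * b) := by nlinarith
    have a7 := mul_le_mul_of_nonneg_left a6 hY
    rw [show 2 * j + 2 + 1 = 2 * j + 3 from rfl] at d e2
    rw [e1] at a5 d
    rw [e2] at d
    rw [e3] at h2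
    have a8 : 0 ≤ θ * b ^ (2 * j + 1) * (b * b) := by positivity
    refine le_of_mul_le_mul_right ?_ (mul_pos hb hb)
    linarith

/-- A subgroup of order at least `N`: the exchange inequality and the comparison of the orders. -/
lemma num_big (j : ℕ) (b b₀ L N θ p t : ℝ) (hj1 : 1 ≤ j) (hb : 0 < b) (h1 : b₀ ≤ b) (h2 : b ≤ N)
    (h3 : N ≤ L) (h4 : N ≤ 2 * b) (hθ : (1 / 2) ^ j ≤ θ) (h9 : 100 * (2 * j + 2) * θ ≤ 1)
    (hp1 : L * p ≤ t + θ * b ^ (2 * j + 1) * (L * b)) (ht : t ≤ b ^ (2 * j + 2) * b₀)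
    (hp : L * p ≤ b ^ (2 * j + 3) - (b - b₀) * b₀ ^ (2 * j + 2) + (L + b - 2 * b₀) ^ (2 * j + 3)
      + L * ((L + b - 2 * b₀) ^ (2 * j + 2) - (L - b₀) ^ (2 * j + 2))) :
    p ≤ (b ^ (2 * j + 3) + (N - b) ^ (2 * j + 3)) / N := by
  by_contra hcon
  have hL0 : 0 < L := by linarith
  have hN0 : 0 < N := by linarith
  rw [not_le, div_lt_iff₀ hN0] at hcon
  have hj : (0 : ℝ) ≤ j := Nat.cast_nonneg j
  have hθ0 : 0 ≤ θ := le_trans (by positivity) hθ
  have hθ1 : 200 * θ ≤ 1 := by nlinarith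
  have hc : 0 ≤ (N - b) ^ (2 * j + 3) := pow_nonneg (by linarith) _
  obtain ⟨X, hX⟩ : ∃ X, X = b ^ (2 * j + 1) := ⟨_, rfl⟩
  have hX0 : 0 < X := by rw [hX]; positivity
  have e1 : b ^ (2 * j + 2) = X * b := by rw [hX]; ring
  have e2 : b ^ (2 * j + 3) = X * b * b := by rw [hX]; ring
  have hXb : 0 < X * b := by positivity
  have k1 : L * (X * b * b + (N - b) ^ (2 * j + 3)) ≤ N * (X * b * b₀) + L * (2 * θ * (X * b * b)) := by
    have a1 := mul_lt_mul_of_pos_left hcon hL0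
    have a2 := mul_le_mul_of_nonneg_left hp1 hN0.le
    have a3 := mul_le_mul_of_nonneg_left ht hN0.le
    have a4 := mul_le_mul_of_nonneg_left h4 (show 0 ≤ θ * X * (L * b) by positivity)
    rw [e2] at a1
    rw [e1] at a3
    rw [← hX] at a2
    linarith
  have k2 : (1 - 2 * θ) * b * L ≤ N * b₀ := by
    refine le_of_mul_le_mul_left ?_ hXb
    have := mul_nonneg hL0.le hc
    linarith
  have hb₀ : 0 < b₀ := by
    have : 0 < (1 - 2 * θ) * b * L := mul_pos (mul_pos (by linarith) hb) hL0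
    exact (mul_pos_iff_of_pos_left hN0).1 (by linarith)
  have k3 : (1 - 2 * θ) * b ≤ b₀ := by
    refine le_of_mul_le_mul_right ?_ hL0
    have := mul_le_mul_of_nonneg_right h3 hb₀.le
    linarith
  have k4 : (1 - 2 * θ) * L ≤ N := by
    refine le_of_mul_le_mul_right ?_ hb
    have := mul_le_mul_of_nonneg_left h1 hN0.le
    linarith
  have k5 : L ≤ 3 * b := by nlinarith
  have k6 : (N - b) ^ (2 * j + 3) ≤ 2 * θ * b ^ (2 * j + 3) := by
    refine le_of_mul_le_mul_left ?_ hL0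
    have a1 := mul_le_mul h3 (mul_le_mul_of_nonneg_left h1 hXb.le) (by positivity) hL0.le
    rw [e2]
    linarith
  obtain ⟨s, hs⟩ : ∃ s, s = L + b - 2 * b₀ := ⟨_, rfl⟩
  rw [← hs] at hp
  have hθb : 0 ≤ θ * b := by positivity
  have hθL := mul_le_mul_of_nonneg_left k5 hθ0
  have hθb' := mul_le_mul_of_nonneg_right hθ1 hb.le
  have hs3 := num_dev j b (N - b) s θ hb (by linarith) (by linarith) (by linarith) hθ h9 k6
  rw [← hX] at hs3
  have hs0 : 0 ≤ s := by linarith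
  have hs2 : s ≤ 2 * b := by linarith
  have hs4 : s ^ (2 * j + 2) ≤ 12 * θ * X * (2 * b) := by
    rw [pow_succ]; gcongr
  have d1 := pow_diff (x := s) (y := L - b) (by linarith) (by linarith) (2 * j + 2)
  have d2 := pow_diff (x := s) (y := L - b₀) (by linarith) (by linarith) (2 * j + 1)
  have d3 := pow_diff (x := L - b) (y := N - b) (by linarith) (by linarith) (2 * j + 2)
  push_cast at d1 d2 d3
  rw [show s - (L - b) = 2 * (b - b₀) by rw [hs]; ring] at d1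
  rw [show s - (L - b₀) = b - b₀ by rw [hs]; ring] at d2
  have hb1 : 0 ≤ b - b₀ := by linarith
  have q0 : 98 / 100 * (X * b) ≤ b₀ ^ (2 * j + 2) := by
    have a2 : ((1 - 2 * θ) * b) ^ (2 * j + 2) ≤ b₀ ^ (2 * j + 2) :=
      pow_le_pow_left₀ (mul_nonneg (by linarith) hb.le) k3 _
    have a3 := one_add_mul_le_pow (a := -(2 * θ)) (by linarith) (2 * j + 2)
    rw [mul_pow, e1] at a2
    rw [← sub_eq_add_neg] at a3
    push_cast at a3
    exact le_trans (mul_le_mul_of_nonneg_right (by linarith) hXb.le) a2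
  have q1 : s ^ (2 * j + 3) - (L - b) ^ (2 * j + 3) ≤
      (2 * j + 2 + 1) * (2 * (b - b₀)) * (12 * θ * X * (2 * b)) := by
    refine d1.trans ?_
    gcongr
  have q2 : L * (s ^ (2 * j + 2) - (L - b₀) ^ (2 * j + 2)) ≤
      3 * b * ((2 * j + 1 + 1) * (b - b₀) * (12 * θ * X)) := by
    refine (mul_le_mul_of_nonneg_left d2 hL0.le).trans ?_
    gcongr
  have q3 : (168 * j + 216) * θ * ((b - b₀) * (X * b)) ≤ 98 / 100 * ((b - b₀) * (X * b)) :=
    mul_le_mul_of_nonneg_right (by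
      have : (1 : ℝ) ≤ j := by exact_mod_cast hj1
      have := mul_le_mul_of_nonneg_right this hθ0
      linarith) (by positivity)
  have q4 := mul_le_mul_of_nonneg_left q0 hb1
  have r1 : L * p ≤ b ^ (2 * j + 3) + (L - b) ^ (2 * j + 3) := by linarith
  have r2 : N * ((2 * j + 2 + 1) * (L - b) ^ (2 * j + 2)) ≤ b ^ (2 * j + 3) := by
    have a1 : (L - b) ^ (2 * j + 2) ≤ 12 * θ * X * (2 * b) :=
      (pow_le_pow_left₀ (by linarith) (by linarith) _).trans hs4
    calc N * ((2 * j + 2 + 1) * (L - b) ^ (2 * j + 2))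
        ≤ 2 * b * ((2 * j + 2 + 1) * (12 * θ * X * (2 * b))) :=
          mul_le_mul h4 (mul_le_mul_of_nonneg_left a1 (by positivity))
            (mul_nonneg (by positivity) (pow_nonneg (sub_nonneg.2 (h2.trans h3)) _)) (by positivity)
      _ = (96 * j + 144) * θ * (X * b * b) := by ring
      _ ≤ 1 * (X * b * b) := mul_le_mul_of_nonneg_right (by nlinarith) (by positivity)
      _ = _ := by rw [one_mul, e2]
  have t1 := mul_le_mul_of_nonneg_left r1 hN0.le
  have t2 := mul_le_mul_of_nonneg_left d3 hN0.le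
  have t3 := mul_le_mul_of_nonneg_left r2 (sub_nonneg.2 h3)
  have t4 := mul_le_mul_of_nonneg_left h3 hc
  have t5 := mul_lt_mul_of_pos_left hcon hL0
  rw [show 2 * j + 2 + 1 = 2 * j + 3 from rfl] at t2
  linarith

/-- A subgroup of order less than `b`. -/
lemma num_small (j : ℕ) (b b₀ L θ η r p : ℝ) (hb : 0 < b) (h1 : b₀ ≤ L) (h2 : L ≤ b)
    (h3 : 4 / 5 * b ≤ b₀) (hη : 3 * η ≤ 1) (hθ : (1 - η) ^ j ≤ θ)
    (h9 : 100 * (2 * j + 2) * θ ≤ 1) (hr : 0 ≤ r) (hr' : r ≤ b - b₀)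
    (hp : L * p ≤ b ^ (2 * j + 3) / 2 + (L + b - 2 * b₀) ^ (2 * j + 3)
        + L * (L + b - 2 * b₀) ^ (2 * j + 2) ∨
      L * p ≤ b ^ (2 * j + 3) / 2
        + (2 * b₀ - b) ^ (2 * j + 1) * ((2 * b₀ - b) ^ 2 / 2 - (b - b₀) * r / 2)
        + ((L + b - 2 * b₀) ^ (2 * j + 3) - (b - b₀) ^ (2 * j + 3))
        + L * ((L + b - 2 * b₀) ^ (2 * j + 2) - (L + b - 2 * b₀ - r) ^ (2 * j + 2))) :
    p ≤ (b ^ (2 * j + 3) + (2 * L - b) ^ (2 * j + 3)) / (2 * L) := by
  have hL0 : 0 < L := by linarith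
  have hj : (0 : ℝ) ≤ j := Nat.cast_nonneg j
  have hθ0 : 0 ≤ θ := le_trans (pow_nonneg (by linarith) j) hθ
  have hθ1 : 200 * θ ≤ 1 := by nlinarith
  obtain ⟨s, hs⟩ : ∃ s, s = L + b - 2 * b₀ := ⟨_, rfl⟩
  obtain ⟨w, hw⟩ : ∃ w, w = 2 * b₀ - b := ⟨_, rfl⟩
  rw [← hs, ← hw] at hp
  have hs0 : 0 ≤ s := by linarith
  have hw0 : 0 < w := by linarith
  have hsw : s ≤ w := by linarith
  obtain ⟨Y, hY⟩ : ∃ Y, Y = w ^ (2 * j) := ⟨_, rfl⟩
  have hY0 : 0 < Y := by rw [hY]; positivity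
  have hsp : s ^ (2 * j) ≤ θ ^ 2 * Y := by
    have a1 : s ≤ (1 - η) * w := by nlinarith
    have a2 : 0 ≤ (1 - η) ^ j := pow_nonneg (by linarith) j
    calc s ^ (2 * j) ≤ ((1 - η) * w) ^ (2 * j) := pow_le_pow_left₀ hs0 a1 _
      _ = ((1 - η) ^ j) ^ 2 * Y := by rw [mul_pow, ← pow_mul, mul_comm j 2, hY]
      _ ≤ _ := by gcongr
  have e3 : w ^ (2 * j + 3) = Y * w * w * w := by rw [hY]; ring
  have e2 : w ^ (2 * j + 2) = Y * w * w := by rw [hY]; ring
  have e1 : w ^ (2 * j + 1) = Y * w := by rw [hY]; ring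
  have hL : L ≤ 2 * w := by linarith
  rw [le_div_iff₀ (by positivity)]
  rcases hp with hp | hp
  · have a1 : s ^ (2 * j + 2) ≤ θ ^ 2 * Y * w * w := by
      rw [pow_succ, pow_succ]; gcongr
    have a2 : s ^ (2 * j + 3) ≤ θ ^ 2 * Y * w * w * w := by
      rw [pow_succ]; gcongr
    have a3 := mul_le_mul hL a1 (by positivity) (by positivity)
    have a4 : w ^ (2 * j + 3) ≤ (2 * L - b) ^ (2 * j + 3) := pow_le_pow_left₀ hw0.le (by linarith) _
    have a5 : 6 * θ ^ 2 * (Y * w * w * w) ≤ 1 * (Y * w * w * w) :=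
      mul_le_mul_of_nonneg_right (by nlinarith) (by positivity)
    linarith
  · have d1 := pow_diff (x := s) (y := b - b₀) (by linarith) (by linarith) (2 * j + 2)
    have d2 := pow_diff (x := s) (y := s - r) (by linarith) (by linarith) (2 * j + 1)
    have d3 := add_one_mul_pow_le w (2 * (L - b₀)) hw0.le (by linarith) (2 * j + 2)
    push_cast at d1 d2 d3
    rw [show s - (b - b₀) = L - b₀ by rw [hs]; ring] at d1
    rw [sub_sub_cancel] at d2
    rw [show w + 2 * (L - b₀) = 2 * L - b by rw [hw]; ring] at d3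
    rw [show 2 * j + 2 + 1 = 2 * j + 3 from rfl] at d1 d3
    rw [show 2 * j + 1 + 1 = 2 * j + 2 from rfl] at d2
    have a1 := mul_le_mul_of_nonneg_left (pow_le_pow_left₀ hs0 hsw (2 * j + 2))
      (show 0 ≤ (2 * (j : ℝ) + 2 + 1) * (L - b₀) from mul_nonneg (by positivity) (by linarith))
    have hb1 : 0 ≤ b - b₀ := by linarith
    have a2 : s ^ (2 * j + 1) ≤ θ ^ 2 * Y * (2 * (b - b₀)) := by
      rw [pow_succ]
      exact mul_le_mul hsp (by linarith) hs0 (by positivity)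
    have a3 : L * (s ^ (2 * j + 2) - (s - r) ^ (2 * j + 2)) ≤
        2 * w * ((2 * j + 1 + 1) * r * (θ ^ 2 * Y * (2 * (b - b₀)))) := by
      refine (mul_le_mul_of_nonneg_left d2 hL0.le).trans ?_
      gcongr
    have a4 : 4 * (2 * j + 2) * θ ^ 2 * (Y * w * ((b - b₀) * r)) ≤
        1 / 2 * (Y * w * ((b - b₀) * r)) :=
      mul_le_mul_of_nonneg_right (by nlinarith) (by positivity)
    rw [e1] at hp
    rw [e3] at d3
    linarith

/-- The choice of the parameters. -/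
lemma params (k : ℕ) (hk : Even k) (h0 : 10000 ≤ k) :
    ∃ (j : ℕ) (η θ : ℝ), k = 2 * j + 2 ∧ 1 ≤ j ∧ 0 < η ∧ 320 * η ≤ 1 ∧ (1 - η) ^ j ≤ θ ∧
      100 * (2 * j + 2) * θ ≤ 1 ∧ 64 * η < 130 * Real.log (100 * k) / k := by
  obtain ⟨i, rfl⟩ := hk
  obtain ⟨j, rfl⟩ : ∃ j, i = j + 1 := ⟨i - 1, by omega⟩
  have e : ((j + 1 + (j + 1) : ℕ) : ℝ) = 2 * j + 2 := by push_cast; ring
  rw [e]
  have hj : (4999 : ℝ) ≤ j := by exact_mod_cast (show 4999 ≤ j by omega)
  have hjp : (0 : ℝ) < j := by linarith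
  set t := Real.log (100 * (2 * j + 2)) with ht
  have ht0 : 0 < t := Real.log_pos (by linarith)
  have ht1 : 320 * t ≤ j := by
    have a1 := Real.log_le_sub_one_of_pos
      (show (0 : ℝ) < 100 * (2 * j + 2) / 1048576 by positivity)
    have a2 : Real.log 1048576 = 20 * Real.log 2 := by
      rw [show (1048576 : ℝ) = 2 ^ 20 by norm_num, Real.log_pow]; norm_num
    rw [Real.log_div (by positivity) (by positivity), a2, ← ht] at a1
    have := Real.log_two_lt_d9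
    linarith
  refine ⟨j, t / j, 1 / (100 * (2 * j + 2)), by ring, by omega, by positivity, ?_, ?_, ?_, ?_⟩
  · rw [← mul_div_assoc, div_le_one hjp]
    exact ht1
  · refine (Real.one_sub_div_pow_le_exp_neg (by linarith)).trans (le_of_eq ?_)
    rw [ht, Real.exp_neg, Real.exp_log (by positivity), one_div]
  · rw [mul_one_div_cancel (by positivity)]
  · rw [← mul_div_assoc, div_lt_div_iff₀ hjp (by positivity)]
    have := mul_lt_mul_of_pos_left (show (64 : ℝ) < j by linarith) ht0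
    linarith

end Pool.Agent.MP_ed46bc_co.LD
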