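import Pool.Agent.MP_ed46bc_co.LD.Walk
import Pool.Agent.MP_ed46bc_co.LD.Num

/-!
# Long even sums: the upper bound for the number of solutions
-/

namespace Pool.Agent.MP_ed46bc_co.LD

open Finset

universe u

variable {G : Type u} [AddCommGroup G] [Fintype G] [DecidableEq G]

/-- The value attached to a subgroup of order `M`. -/
noncomputable def phi (k b M : ℕ) : ℝ := ((b : ℝ) ^ (k + 1) + ((M : ℝ) - b) ^ (k + 1)) / M

/-- A set with many solutions is close to a coset. -/
lemma near_coset (B : Finset G) (j : ℕ) (η θ : ℝ) (hB : 0 < B.card) (hη : 0 < η)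
    (hη' : 320 * η ≤ 1) (p1 : (1 - η) ^ j ≤ θ) (p2 : 100 * θ ≤ 1)
    (h : (B.card : ℝ) ^ (2 * j + 1) * B.card < 2 * T (2 * j + 2) {0} (ind B)) :
    ∃ (K : Finset G) (y : G), 0 ∈ K ∧ (∀ x ∈ K, ∀ z ∈ K, x - z ∈ K) ∧ K.card ∣ Fintype.card G ∧
      (∀ x, cn B K x ≤ cn B K y) ∧ (1 - 64 * η) * B.card ≤ cn B K y ∧
      K.card * T (2 * j + 2) {0} (ind B) ≤ T (2 * j + 2) K (ind B)
        + θ * (B.card : ℝ) ^ (2 * j + 1) * (K.card * B.card) ∧
      K.card * T (2 * j + 2) {0} (ind B) = T (2 * j + 2) K (ind B)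
        + T (2 * j + 2) K (fun z => ind K (y - z) - ind B z)
        - K.card * T (2 * j + 2) {0} fun z => ind K (y - z) - ind B z := by
  classical
  have hn : (0 : ℝ) < Fintype.card G := by exact_mod_cast Fintype.card_pos
  have hb : (0 : ℝ) < B.card := by exact_mod_cast hB
  have hX : 0 < (B.card : ℝ) ^ (2 * j + 1) := by positivity
  have hM : 49 / 100 * ((Fintype.card G : ℝ) * B.card) ≤ ∑ ψ ∈ Gam B η, ‖Fh (ind B) ψ‖ ^ 2 := by
    have a1 := tail B j η θ (by linarith) p1 _ subset_rfl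
    have a2 : ∑ ψ ∈ Gam B η, Rr (2 * j + 2) (ind B) ψ ≤
        (B.card : ℝ) ^ (2 * j + 1) * ∑ ψ ∈ Gam B η, ‖Fh (ind B) ψ‖ ^ 2 := by
      rw [mul_sum]
      refine sum_le_sum fun ψ _ => (Rr_le _ _ _).trans ?_
      have := norm_le B ψ
      rw [show 2 * j + 2 + 1 = 2 * j + 1 + 2 from rfl, pow_add]
      gcongr
    have a3 := mul_lt_mul_of_pos_left h hn
    have a4 := mul_le_mul_of_nonneg_right p2 (mul_pos hX (mul_pos hn hb)).le
    refine le_of_mul_le_mul_left ?_ hX
    linarith
  obtain ⟨S, hΓ, s0, sn, sa, hS⟩ := exists_sub_two B η hη.le hη' hB hM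
  obtain ⟨K, hd, k0, ks, hc, hv⟩ := exists_dual (G := G) S s0 sn sa
  have hc' : (Fintype.card G : ℝ) = S.card * K.card := by exact_mod_cast hc.symm
  have hl : (0 : ℝ) < S.card := by exact_mod_cast card_pos.2 ⟨0, s0⟩
  obtain ⟨y, -, hy⟩ := exists_max_image univ (cn B K) univ_nonempty
  refine ⟨K, y, k0, ks, Dvd.intro_left _ hc, fun x => hy x (mem_univ x), ?_, ?_, ?_⟩
  · have a1 := four hd 1 (ind B)
    have a2 := T_le_max 1 B K _ fun x => hy x (mem_univ x)
    have a3 : S.card * ((1 - 64 * η) * (B.card : ℝ) ^ 2) ≤ ∑ ψ ∈ S, Rr 1 (ind B) ψ := by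
      rw [← nsmul_eq_mul]
      refine card_nsmul_le_sum _ _ _ fun ψ hψ => ?_
      have := hS ψ hψ
      rw [Rr_one]
      linarith
    have a4 := mul_le_mul_of_nonneg_left a2 hl.le
    refine le_of_mul_le_mul_left ?_ (mul_pos hl hb)
    linarith
  · have a4 := tail B j η θ (by linarith) p1 S hΓ
    rw [four hd, hc'] at a4
    refine le_of_mul_le_mul_left ?_ hl
    linarith
  · have a1 := split hd (k := 2 * j + 2) ⟨j + 1, by ring⟩ (fun z => ind K (y - z)) (ind B)
      fun ψ hψ => hv ψ hψ y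
    rw [hc', mul_assoc, mul_assoc, ← mul_sub] at a1
    exact mul_left_cancel₀ hl.ne' a1

theorem upper (k M : ℕ) (hk : Even k) (hk0 : 10000 ≤ k) (B : Finset G) (hM : 0 < M)
    (hbM : B.card ≤ M) (hMb : M ≤ 2 * B.card)
    (h1 : ∀ D : ℕ, D ∣ Fintype.card G → B.card ≤ D → D < M → phi k B.card D ≤ phi k B.card M)
    (h2 : ∀ D : ℕ, D ∣ Fintype.card G → D < B.card →
      (1 - 130 * Real.log (100 * k) / k) * B.card < D → phi k B.card (2 * D) ≤ phi k B.card M) :
    T k {0} (ind B) ≤ phi k B.card M := by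
  classical
  by_contra hcon
  rw [not_le] at hcon
  have hB : 0 < B.card := by omega
  have hb : (0 : ℝ) < B.card := by exact_mod_cast hB
  obtain ⟨j, η, θ, rfl, hj, hη, hη', p1, p2, p3⟩ := params k hk hk0
  have hj0 : (0 : ℝ) ≤ j := Nat.cast_nonneg j
  have hθ : 0 ≤ θ := le_trans (pow_nonneg (by linarith) j) p1
  have hθ' : 200 * θ ≤ 1 := by
    have := mul_nonneg hj0 hθ
    linarith
  have hX : 0 < (B.card : ℝ) ^ (2 * j + 1) := by positivity
  have e3 : (B.card : ℝ) ^ (2 * j + 2 + 1) = B.card ^ (2 * j + 1) * B.card * B.card := by ring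
  have low : ∀ N : ℕ, B.card ≤ N → phi (2 * j + 2) B.card N < T (2 * j + 2) {0} (ind B) →
      (B.card : ℝ) ^ (2 * j + 1) * B.card * B.card < N * T (2 * j + 2) {0} (ind B) := by
    intro N hN h
    have hN' : (B.card : ℝ) ≤ N := by exact_mod_cast hN
    rw [phi, div_lt_iff₀ (by linarith), e3] at h
    have : 0 ≤ ((N : ℝ) - B.card) ^ (2 * j + 2 + 1) := pow_nonneg (by linarith) _
    linarith
  have hM' : (0 : ℝ) < M := by exact_mod_cast hM
  have hp0 : 0 < T (2 * j + 2) {0} (ind B) :=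
    (mul_pos_iff_of_pos_left hM').1 (lt_trans (by positivity) (low M hbM hcon))
  have half : (B.card : ℝ) ^ (2 * j + 1) * B.card < 2 * T (2 * j + 2) {0} (ind B) := by
    have a1 := low M hbM hcon
    have a2 : (M : ℝ) ≤ 2 * B.card := by exact_mod_cast hMb
    have a3 := mul_le_mul_of_nonneg_right a2 hp0.le
    refine lt_of_mul_lt_mul_right ?_ hb.le
    linarith
  obtain ⟨K, y, k0, ks, hK, hy, hb₀, ht, hs⟩ :=
    near_coset B j η θ hB hη hη' p1 (by linarith) half
  have hL0 : (0 : ℝ) < K.card := by exact_mod_cast card_pos.2 ⟨0, k0⟩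
  have hb₁ : 4 / 5 * (B.card : ℝ) ≤ cn B K y :=
    le_trans (mul_le_mul_of_nonneg_right (by linarith) hb.le) hb₀
  have hw : 0 ≤ 2 * cn B K y - B.card := by linarith
  have a3 := T_le_max (2 * j + 2) B K _ hy
  have gd : y - (2 * j + 2) • y ∈ K → ∀ a : Fin (2 * j + 2) → G, (∀ i, y - a i ∈ K) →
      y - ∑ i, a i ∈ K := by
    intro hg a ha
    have ka : ∀ u ∈ K, ∀ v ∈ K, u + v ∈ K := fun u hu v hv => by
      simpa using ks _ hu _ (ks _ k0 _ hv)
    have e := ka _ hg _ (sum_induction (fun i => y - a i) (· ∈ K)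
      (fun u v hu hv => ka u hu v hv) k0 fun i (_ : i ∈ univ) => ha i)
    rwa [sum_sub_distrib, sum_const, card_univ, Fintype.card_fin, sub_add_sub_cancel] at e
  rcases le_or_gt B.card K.card with hL | hL
  · obtain ⟨N, n1, n2, n3, n4⟩ : ∃ N : ℕ, B.card ≤ N ∧ N ≤ K.card ∧ N ≤ 2 * B.card ∧
        phi (2 * j + 2) B.card N < T (2 * j + 2) {0} (ind B) := by
      rcases lt_or_ge K.card M with h | h
      · exact ⟨K.card, hL, le_rfl, by omega, (h1 _ hK hL h).trans_lt hcon⟩
      · exact ⟨M, hbM, h, hMb, hcon⟩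
    have n2' : (N : ℝ) ≤ K.card := by exact_mod_cast n2
    by_cases hg : y - (2 * j + 2) • y ∈ K
    · have a2 := T_le_drop (2 * j + 2) B K y (B.card - cn B K y) fun a ha => by
        rw [cn_congr k0 ks B (gd hg a ha), sub_sub_cancel]
      have a4 := T_dev (2 * j + 2) B K y
      have a5 := mul_le_mul_of_nonneg_left (T_dev_zero (2 * j + 2) B K y (gd hg)) hL0.le
      refine absurd (num_big j B.card (cn B K y) K.card N θ _ _ hj hb (cn_le B K y)
        (by exact_mod_cast n1) n2' (by exact_mod_cast n3)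
        (le_trans (pow_le_pow_left₀ (by norm_num) (by linarith) j) p1) p2 ht a3 ?_) (not_le.2 n4)
      rw [show 2 * j + 2 + 1 = 2 * j + 3 from rfl] at a2 a4
      linarith
    · have a2 := T_bad k0 ks B y hw _ hg
      have a4 := low N n1 n4
      have a5 := mul_le_mul_of_nonneg_right n2' hp0.le
      have a6 := mul_lt_mul_of_pos_left half hL0
      have a7 := mul_le_mul_of_nonneg_right hθ' (mul_pos hX (mul_pos hL0 hb)).le
      rw [e3] at a2
      have a8 : (K.card : ℝ) ≤ 3 * B.card := by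
        refine le_of_mul_le_mul_left ?_ (mul_pos hX hb)
        have : 0 < (B.card : ℝ) ^ (2 * j + 1) * B.card * B.card := by positivity
        linarith
      have a9 := mul_le_mul_of_nonneg_left a8 (mul_pos hX hb).le
      have : 0 < (B.card : ℝ) ^ (2 * j + 1) * B.card * B.card := by positivity
      linarith
  · have hL' : (K.card : ℝ) < B.card := by exact_mod_cast hL
    have c1 := cn_le' B K y
    have n4 := (h2 _ hK hL (lt_of_lt_of_le (mul_lt_mul_of_pos_right (by linarith) hb)
      (hb₀.trans c1))).trans_lt hcon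
    rw [phi, Nat.cast_mul, Nat.cast_ofNat] at n4
    by_cases hg : y - (2 * j + 2) • y ∈ K
    · obtain ⟨z, hz, hm⟩ := exists_max_image (univ.filter fun x => y - x ∉ K) (cn B K) (by
        by_contra h
        simp only [not_nonempty_iff_eq_empty, filter_eq_empty_iff, mem_univ, not_not,
          forall_true_left] at h
        have : cn B K y = B.card := by
          rw [← sum_ind]
          exact sum_congr rfl fun x _ => by simp [ind, h]
        linarith)
      simp only [mem_filter, mem_univ, true_and] at hz hm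
      have c2 := cn_disj ks B hz
      have c3 : 0 ≤ cn B K z := sum_nonneg fun x _ => mul_nonneg (ind_nonneg _ _) (ind_nonneg _ _)
      have a4 := T_dev_even hk B K y
      have a2 := T_good k0 ks B y z hw (2 * j) (by rwa [add_comm]) hz hm
      rw [add_comm 2 (2 * j), show 2 * j + 2 + 1 = 2 * j + 3 from rfl] at a2
      rw [show 2 * j + 2 + 1 = 2 * j + 3 from rfl] at a4
      by_cases h2 : y - z + (y - z) ∈ K
      · have a5 := mul_le_mul_of_nonneg_left (T_dev_two k0 ks _ B y z hg hz h2) hL0.le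
        have a6 := a2 _ (Or.inl ⟨h2, rfl⟩)
        refine absurd (num_small j B.card (cn B K y) K.card θ η (B.card - cn B K y - cn B K z) _
          hb c1 hL'.le hb₁ (by linarith) p1 p2 (by linarith) (by linarith) (Or.inr ?_))
          (not_le.2 n4)
        rw [show (K.card : ℝ) + B.card - 2 * cn B K y - (B.card - cn B K y - cn B K z) =
          K.card - cn B K y + cn B K z by ring]
        linarith
      · have a5 := mul_le_mul_of_nonneg_left (T_dev_zero (2 * j + 2) B K y (gd hg)) hL0.le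
        have a6 := a2 _ (Or.inr ⟨h2, rfl⟩)
        refine absurd (num_small j B.card (cn B K y) K.card θ η (B.card - cn B K y) _
          hb c1 hL'.le hb₁ (by linarith) p1 p2 (by linarith) le_rfl (Or.inr ?_)) (not_le.2 n4)
        rw [show (K.card : ℝ) + B.card - 2 * cn B K y - (B.card - cn B K y) =
          K.card - cn B K y by ring]
        linarith
    · have a2 := T_bad k0 ks B y hw _ hg
      have a4 := T_dev (2 * j + 2) B K y
      have a5 := mul_le_mul_of_nonneg_left (T_dev_abs (2 * j + 1) B K y) hL0.le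
      refine absurd (num_small j B.card (cn B K y) K.card θ η 0 _
        hb c1 hL'.le hb₁ (by linarith) p1 p2 le_rfl (by linarith) (Or.inl ?_)) (not_le.2 n4)
      rw [show 2 * j + 2 + 1 = 2 * j + 3 from rfl] at a2 a4
      rw [show 2 * j + 1 + 1 = 2 * j + 2 from rfl] at a5
      linarith

end Pool.Agent.MP_ed46bc_co.LD
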