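import Pool.Agent.MP_ed46bc_co.LD.Cos

/-!
# Long even sums: the walk on the cosets
-/

namespace Pool.Agent.MP_ed46bc_co.LD

open Finset

universe u

variable {G : Type u} [AddCommGroup G] [Fintype G] [DecidableEq G]

/-- Number of `j`-tuples from `B` whose sum lies in the coset of `x`. -/
def Wk (B K : Finset G) (j : ℕ) (x : G) : ℝ :=
  ∑ a : Fin j → G, (∏ i, ind B (a i)) * ind K (x - ∑ i, a i)

lemma Wk_zero (B K : Finset G) (x : G) : Wk B K 0 x = ind K x := by simp [Wk]

lemma Wk_succ (B K : Finset G) (j : ℕ) (x : G) :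
    Wk B K (j + 1) x = ∑ z, ind B z * Wk B K j (x - z) := by
  rw [Wk, ← (Fin.consEquiv fun _ : Fin (j + 1) => G).sum_comp, Fintype.sum_prod_type]
  refine sum_congr rfl fun z _ => ?_
  rw [Wk, mul_sum]
  refine sum_congr rfl fun a _ => ?_
  simp only [Fin.consEquiv_apply, Fin.prod_univ_succ, Fin.sum_univ_succ, Fin.cons_zero,
    Fin.cons_succ, sub_sub, mul_assoc]

lemma Wk_one (B K : Finset G) (x : G) : Wk B K 1 x = cn B K x := by
  rw [Wk_succ]
  exact sum_congr rfl fun z _ => by rw [Wk_zero]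

lemma split_le (B K : Finset G) (y : G) (g : G → ℝ) (α β : ℝ) (h1 : ∀ z, y - z ∈ K → g z ≤ α)
    (h2 : ∀ z, y - z ∉ K → g z ≤ β) :
    ∑ z, ind B z * g z ≤ cn B K y * α + (B.card - cn B K y) * β := by
  rw [← sum_ind, cn, ← sum_sub_distrib, sum_mul, sum_mul, ← sum_add_distrib]
  refine sum_le_sum fun z _ => ?_
  by_cases h : y - z ∈ K <;> by_cases h' : z ∈ B <;> simp [ind, h, h', h1, h2]

section

variable {K : Finset G} (k0 : 0 ∈ K) (ks : ∀ x ∈ K, ∀ y ∈ K, x - y ∈ K) (B : Finset G)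

include k0 ks

lemma Wk_congr (j : ℕ) {x y : G} (h : y - x ∈ K) : Wk B K j x = Wk B K j y := by
  refine sum_congr rfl fun a _ => ?_
  have : x - ∑ i, a i ∈ K ↔ y - ∑ i, a i ∈ K :=
    ⟨fun h' => by simpa using ks _ h' _ (ks _ k0 _ h), fun h' => by simpa using ks _ h' _ h⟩
  simp only [ind, this]

omit k0 in
lemma Wk_disj (j : ℕ) {x y : G} (h : y - x ∉ K) :
    Wk B K j x + Wk B K j y ≤ (B.card : ℝ) ^ j := by
  rw [← sum_ind, ← sum_prod, Wk, Wk, ← sum_add_distrib]
  refine sum_le_sum fun a _ => ?_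
  rw [← mul_add]
  refine mul_le_of_le_one_right (prod_nonneg fun i _ => ind_nonneg _ _) ?_
  unfold ind
  split_ifs with h2 h3 <;> norm_num
  exact h (by simpa using ks _ h3 _ h2)

lemma T_eq (k : ℕ) : T k K (ind B) = ∑ z, ind B z * Wk B K k z := by
  simp only [T, Wk, mul_sum]
  rw [sum_comm]
  refine sum_congr rfl fun z _ => sum_congr rfl fun a _ => ?_
  have : ∑ i, a i - z ∈ K ↔ z - ∑ i, a i ∈ K :=
    ⟨fun h => by simpa using ks _ k0 _ h, fun h => by simpa using ks _ k0 _ h⟩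
  simp only [ind, this]
  ring

lemma walk (y τ : G) (hw : 0 ≤ 2 * cn B K y - B.card) (i d : ℕ) :
    Wk B K (i + d) ((i + d) • y + τ) - (B.card : ℝ) ^ (i + d) / 2 ≤
      (2 * cn B K y - B.card) ^ d * (Wk B K i (i • y + τ) - (B.card : ℝ) ^ i / 2) := by
  induction d with
  | zero => simp
  | succ d ih =>
    have e : ∀ z, (i + (d + 1)) • y + τ - z - ((i + d) • y + τ) = y - z := fun z => by
      rw [← add_assoc, succ_nsmul]; abel
    have h := split_le B K y (fun z => Wk B K (i + d) ((i + (d + 1)) • y + τ - z))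
      (Wk B K (i + d) ((i + d) • y + τ)) (B.card ^ (i + d) - Wk B K (i + d) ((i + d) • y + τ))
      (fun z hz => (Wk_congr k0 ks B _ (by rwa [e])).ge)
      fun z hz => le_sub_iff_add_le'.2 (Wk_disj ks B _ (by rwa [e]))
    have h2 := mul_le_mul_of_nonneg_left ih hw
    rw [← Wk_succ] at h
    rw [pow_succ' _ d, mul_assoc, show (B.card : ℝ) ^ (i + (d + 1)) = B.card ^ (i + d) * B.card
      from pow_succ _ _]
    refine le_trans ?_ h2
    change Wk B K (i + d + 1) _ - _ ≤ _
    linarith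

lemma T_walk (y : G) (hw : 0 ≤ 2 * cn B K y - B.card) (i d : ℕ) :
    T (i + d) K (ind B) - (B.card : ℝ) ^ (i + d + 1) / 2 ≤ (2 * cn B K y - B.card) ^ (d + 1) *
      (Wk B K i (i • y + (y - (i + d) • y)) - (B.card : ℝ) ^ i / 2) := by
  have h1 := walk k0 ks B y (y - (i + d) • y) hw i d
  rw [add_sub_cancel] at h1
  have h := split_le B K y (Wk B K (i + d)) (Wk B K (i + d) y)
    (B.card ^ (i + d) - Wk B K (i + d) y) (fun z hz => (Wk_congr k0 ks B _ hz).le)
    fun z hz => le_sub_iff_add_le.2 (Wk_disj ks B _ hz)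
  have h2 := mul_le_mul_of_nonneg_left h1 hw
  rw [← T_eq k0 ks] at h
  rw [pow_succ' _ d, mul_assoc, pow_succ]
  linarith

/-- The coset is not closed under the equation. -/
lemma T_bad (y : G) (hw : 0 ≤ 2 * cn B K y - B.card) (k : ℕ) (h : y - k • y ∉ K) :
    T k K (ind B) ≤ (B.card : ℝ) ^ (k + 1) / 2 := by
  have h1 := T_walk k0 ks B y hw 0 k
  simp only [zero_add, zero_nsmul, Wk_zero, ind, h, if_false, pow_zero] at h1
  have h2 := pow_nonneg hw (k + 1)
  linarith

/-- The coset is closed under the equation; `z` gives the second heaviest coset. -/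
lemma T_good (y z : G) (hw : 0 ≤ 2 * cn B K y - B.card) (d : ℕ) (h : y - (2 + d) • y ∈ K)
    (hz : y - z ∉ K) (hm : ∀ x, y - x ∉ K → cn B K x ≤ cn B K z) (r : ℝ)
    (hr : (y - z + (y - z) ∈ K ∧ r = B.card - cn B K y - cn B K z) ∨
      (y - z + (y - z) ∉ K ∧ r = B.card - cn B K y)) :
    T (2 + d) K (ind B) ≤ (B.card : ℝ) ^ (2 + d + 1) / 2 + (2 * cn B K y - B.card) ^ (d + 1) *
      ((2 * cn B K y - B.card) ^ 2 / 2 - (B.card - cn B K y) * r / 2) := by
  have h1 := T_walk k0 ks B y hw 2 d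
  obtain ⟨τ, hτ⟩ : ∃ τ, τ = y - (2 + d) • y := ⟨_, rfl⟩
  rw [← hτ] at h h1
  have c1 : ∀ x, y - x ∈ K → cn B K (2 • y + τ - x) ≤ cn B K y := fun x hx => by
    refine (cn_congr k0 ks B ?_).le
    rw [show y - (2 • y + τ - x) = 0 - (y - x) - τ by rw [two_nsmul]; abel]
    exact ks _ (ks _ k0 _ hx) _ h
  have c2 : ∀ x, y - x ∉ K → y - (2 • y + τ - x) ∉ K := fun x hx h' => hx (by
    rw [show y - x = 0 - (y - (2 • y + τ - x)) - τ by rw [two_nsmul]; abel]
    exact ks _ (ks _ k0 _ h') _ h)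
  have d1 := cn_disj ks B hz
  have d2 : 0 ≤ cn B K z := sum_nonneg fun x _ => mul_nonneg (ind_nonneg _ _) (ind_nonneg _ _)
  have h2 : Wk B K 2 (2 • y + τ) ≤ cn B K y ^ 2 + (B.card - cn B K y) ^ 2
      - (B.card - cn B K y) * r / 2 := by
    rw [Wk_succ, sum_congr rfl fun x _ => by rw [Wk_one]]
    rcases hr with ⟨-, rfl⟩ | ⟨hr, rfl⟩
    · refine (split_le B K y _ _ _ c1 fun x hx => hm _ (c2 x hx)).trans ?_
      nlinarith [mul_nonneg (show 0 ≤ B.card - cn B K y by linarith)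
        (show 0 ≤ B.card - cn B K y - cn B K z by linarith)]
    · have c3 : ∀ x, z - x ∈ K → cn B K (2 • y + τ - x) ≤ B.card - cn B K y - cn B K z := by
        intro x hx
        have e1 : y - x ∉ K := fun h' => hz (by simpa using ks _ h' _ hx)
        have e2 := c2 x e1
        have e3 : z - (2 • y + τ - x) ∉ K := fun h' => hr (by
          rw [show y - z + (y - z) = 0 - (z - (2 • y + τ - x)) - τ - (z - x) by
            rw [two_nsmul]; abel]
          exact ks _ (ks _ (ks _ k0 _ h') _ h) _ hx)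
        rw [← sum_ind, cn, cn, cn, ← sum_sub_distrib, ← sum_sub_distrib]
        refine sum_le_sum fun v _ => ?_
        have n1 : ¬ (y - v ∈ K ∧ z - v ∈ K) := fun q => hz (by simpa using ks _ q.1 _ q.2)
        have n2 : ¬ (y - v ∈ K ∧ 2 • y + τ - x - v ∈ K) := fun q =>
          e2 (by simpa using ks _ q.1 _ q.2)
        have n3 : ¬ (z - v ∈ K ∧ 2 • y + τ - x - v ∈ K) := fun q =>
          e3 (by simpa using ks _ q.1 _ q.2)
        by_cases q0 : v ∈ B <;> by_cases q1 : y - v ∈ K <;> by_cases q2 : z - v ∈ K <;>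
          by_cases q3 : 2 • y + τ - x - v ∈ K <;> simp_all [ind]
      have c4 : ∑ x, ind B x * cn B K (2 • y + τ - x) ≤ cn B K y * cn B K y
          + cn B K z * (B.card - cn B K y - cn B K z)
          + (B.card - cn B K y - cn B K z) * cn B K z := by
        obtain ⟨α, hα⟩ : ∃ α, α = cn B K y := ⟨_, rfl⟩
        obtain ⟨β, hβ⟩ : ∃ β, β = cn B K z := ⟨_, rfl⟩
        obtain ⟨γ, hγ⟩ : ∃ γ, γ = B.card - cn B K y - cn B K z := ⟨_, rfl⟩
        have e : cn B K y * α + cn B K z * γ + (B.card - cn B K y - cn B K z) * β =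
            ∑ x, (ind B x * ind K (y - x) * α + ind B x * ind K (z - x) * γ
              + (ind B x - ind B x * ind K (y - x) - ind B x * ind K (z - x)) * β) := by
          rw [sum_add_distrib, sum_add_distrib, ← sum_mul, ← sum_mul, ← sum_mul, sum_sub_distrib,
            sum_sub_distrib, sum_ind, cn, cn]
        refine le_trans (sum_le_sum fun x _ => ?_) (le_of_eq (e.symm.trans (by rw [hα, hβ, hγ])))
        have n1 : ¬ (y - x ∈ K ∧ z - x ∈ K) := fun q => hz (by simpa using ks _ q.1 _ q.2)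
        have m1 := c1 x
        have m2 := fun hx => hm _ (c2 x hx)
        have m3 := c3 x
        rw [← hγ] at m3
        rw [← hβ] at m2
        rw [← hα] at m1
        by_cases q0 : x ∈ B <;> by_cases q1 : y - x ∈ K <;> by_cases q2 : z - x ∈ K <;>
          simp_all [ind]
      refine c4.trans ?_
      nlinarith [sq_nonneg (B.card - cn B K y - 2 * cn B K z)]
  have h3 := mul_le_mul_of_nonneg_left
    (show Wk B K 2 (2 • y + τ) - (B.card : ℝ) ^ 2 / 2 ≤
      (2 * cn B K y - B.card) ^ 2 / 2 - (B.card - cn B K y) * r / 2 by linarith)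
    (pow_nonneg hw (d + 1))
  linarith

end

end Pool.Agent.MP_ed46bc_co.LD
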